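import Pool.Agent.H794.KM.Main

/-!
# The complete Kähler-Einstein metric need not maximise the bottom of the spectrum

There is a connected open subset `X` of `ℂ¹⁴` with a complete Kähler-Einstein metric `g₀`,
`Ric(g₀) = -g₀`, and another complete Kähler metric `g₁` with `Ric(g₁) ≥ -g₁` such that
`λ₀(X, g₀) = 3 < λ₀(X, g₁)`.
-/

set_option autoImplicit false

open Pool.Agent.H794.KM

theorem Pool.Agent.Results.MP_164ed8_gt.KENotMaximal.result :
    ∃ (X : Set (Fin 14 → ℂ)) (g₀ g₁ : (Fin 14 → ℂ) → Matrix (Fin 14) (Fin 14) ℂ),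
      IsOpen X ∧ IsConnected X ∧ ¬ IsCompact X ∧ g₀ ∈ Kcal X ∧ IsKE X g₀ ∧ g₁ ∈ Kcal X ∧
        bottom X g₀ = 3 ∧ 3 < bottom X g₁ :=
  Pool.Agent.H794.KM.final
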